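import Pool.Agent.H49.FS.Path

/-!
# Flag 2-spheres: contraction of an edge, the link of the new vertex

`x` and `u` are adjacent, `merge G x u` on `U.erase x` is the contraction; the new vertex is `u`.
-/

set_option autoImplicit false
set_option linter.unusedSectionVars false

open Finset

namespace Pool.Agent.H49.FS

open Pool.Agent.H73.GC (lk lk2 merge NoSq)
open Pool.Agent.H67.FS

variable {V : Type} [DecidableEq V] [Fintype V]

private theorem cb_lk_union (G : SimpleGraph V) (A B : Finset V) (w : V) :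
    lk G (A ∪ B) w = lk G A w ∪ lk G B w := by
  ext t
  rw [mem_union, mem_lk, mem_lk, mem_lk, mem_union]
  tauto

private theorem cb_lk_erase (G : SimpleGraph V) (A : Finset V) (x w : V) :
    lk G (A.erase x) w = (lk G A w).erase x := by
  ext t
  rw [mem_lk, mem_erase, mem_erase, mem_lk]
  tauto

/-- a vertex of the link of `u` which is not adjacent to `x` -/
private theorem cb_one {G : SimpleGraph V} {U : Finset V} (h : Surf G U) {x u : V}
    (hu : u ∈ U) (hN : NoSq G U x u) {w : V} (hw : w ∈ (lk G U u).erase x)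
    (hw' : w ∉ (lk G U x).erase u) :
    (lk G ((lk G U u).erase x) w ∪ lk G ((lk G U x).erase u) w).card = 2 := by
  rw [mem_erase, mem_lk] at hw hw'
  have hwx : ¬ G.Adj x w := fun h1 => hw' ⟨hw.2.2.ne', hw.2.1, h1⟩
  have h1 : lk G ((lk G U x).erase u) w ⊆ lk G ((lk G U u).erase x) w := by
    intro t ht
    rw [mem_lk, mem_erase, mem_lk] at ht ⊢
    obtain ⟨⟨h2, h3, h4⟩, h5⟩ := ht
    rcases hN w hw.2.1 t h3 hw.1 h2 hw.2.2 h4 h5 with h6 | h6
    · exact absurd h6 hwx
    · exact ⟨⟨h4.ne', h3, h6⟩, h5⟩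
  rw [union_eq_left.2 h1, cb_lk_erase, erase_eq_of_notMem]
  · exact (h.cyc u hu).two w (mem_lk.2 hw.2)
  · intro h2
    exact hwx (mem_lk.1 h2).2.symm

/-- The link of the new vertex is the union of the two paths `(lk G U x).erase u` and
`(lk G U u).erase x` with the common ends `a`, `b` (`Surf.pair`; `a`, `b` are not adjacent); there are no
edges between the other vertices of the two paths, by `NoSq`. Connected by `cyc_path` and `Con.union`. -/
theorem con_new {G : SimpleGraph V} {U : Finset V} (h : FS G U) {x u : V} (hx : x ∈ U) (hu : u ∈ U)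
    (hxu : G.Adj x u) (hN : NoSq G U x u) :
    Cyc (merge G x u) (lk (merge G x u) (U.erase x) u) ∧
      (lk (merge G x u) (U.erase x) u).card + 4 = (lk G U x).card + (lk G U u).card := by
  have hN' : NoSq G U u x := fun a ha b hb h1 h2 h3 h4 h5 => (hN b hb a ha h2 h1 h4 h3 h5.symm).symm
  have hcx := h.surf.cyc x hx
  have hcu := h.surf.cyc u hu
  have hux : u ∈ lk G U x := mem_lk.2 ⟨hu, hxu⟩
  have hxu' : x ∈ lk G U u := mem_lk.2 ⟨hx, hxu.symm⟩
  have hL : lk (merge G x u) (U.erase x) u = (lk G U u).erase x ∪ (lk G U x).erase u := by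
    ext w
    rw [mem_lk, mem_erase, mem_union, mem_erase, mem_erase, mem_lk, mem_lk]
    constructor
    · rintro ⟨⟨h1, h2⟩, h3, h4 | h4 | h4⟩
      · exact Or.inl ⟨h1, h2, h4⟩
      · exact Or.inr ⟨Ne.symm h3, h2, h4.2⟩
      · exact absurd h4.1.symm h3
    · rintro (⟨h1, h2, h3⟩ | ⟨h1, h2, h3⟩)
      · exact ⟨⟨h1, h2⟩, h3.ne, Or.inl h3⟩
      · exact ⟨⟨h3.ne', h2⟩, Ne.symm h1, Or.inr (Or.inl ⟨rfl, h3⟩)⟩
  have hadj : ∀ p ∈ (lk G U u).erase x ∪ (lk G U x).erase u,
      ∀ q ∈ (lk G U u).erase x ∪ (lk G U x).erase u, G.Adj p q ↔ (merge G x u).Adj p q := by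
    have hne : ∀ p ∈ (lk G U u).erase x ∪ (lk G U x).erase u, p ≠ u := by
      intro p hp
      rw [mem_union, mem_erase, mem_erase, mem_lk] at hp
      rcases hp with h1 | h1
      · exact h1.2.2.ne'
      · exact h1.1
    intro p hp q hq
    constructor
    · exact fun h1 => ⟨h1.ne, Or.inl h1⟩
    · rintro ⟨-, h1 | h1 | h1⟩
      · exact h1
      · exact absurd h1.1 (hne p hp)
      · exact absurd h1.1 (hne q hq)
  obtain ⟨a, b, hab, hlk, -⟩ := h.surf.pair hx hu hxu
  have hint : (lk G U u).erase x ∩ (lk G U x).erase u = {a, b} := by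
    rw [← hlk]
    ext w
    rw [mem_inter, mem_erase, mem_erase, mem_lk, mem_lk, mem_lk2]
    constructor
    · rintro ⟨⟨-, h2, h3⟩, -, -, h4⟩
      exact ⟨h2, h4, h3⟩
    · rintro ⟨h1, h2, h3⟩
      exact ⟨⟨h2.ne', h1, h3⟩, h3.ne', h1, h2⟩
  have hcard : ((lk G U u).erase x ∪ (lk G U x).erase u).card + 4 =
      (lk G U x).card + (lk G U u).card := by
    have h1 := card_union_add_card_inter ((lk G U u).erase x) ((lk G U x).erase u)
    rw [hint, card_pair hab, card_erase_of_mem hux, card_erase_of_mem hxu'] at h1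
    have h2 := hcx.four
    have h3 := hcu.four
    omega
  rw [hL]
  refine ⟨Cyc.congr hadj ⟨?_, ?_, ?_⟩, hcard⟩
  · have ha : a ∈ (lk G U u).erase x ∩ (lk G U x).erase u := by
      rw [hint]
      exact mem_insert_self _ _
    rw [mem_inter] at ha
    exact (cyc_path hcu hxu').union (cyc_path hcx hux) ha.1 ha.2
  · intro w hw
    rw [cb_lk_union]
    by_cases h1 : w ∈ (lk G U u).erase x
    · by_cases h2 : w ∈ (lk G U x).erase u
      · rw [mem_erase, mem_lk] at h1 h2
        rw [card_union_of_disjoint, cb_lk_erase, cb_lk_erase, card_erase_of_mem,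
          card_erase_of_mem, hcu.two w (mem_lk.2 h1.2), hcx.two w (mem_lk.2 h2.2)]
        · exact mem_lk.2 ⟨hux, h1.2.2.symm⟩
        · exact mem_lk.2 ⟨hxu', h2.2.2.symm⟩
        · rw [disjoint_left]
          intro t h3 h4
          rw [mem_lk, mem_erase, mem_lk] at h3 h4
          exact h.surf.noK4 hx hu h1.2.1 h3.1.2.1 hxu h2.2.2 h4.1.2.2 h1.2.2 h3.1.2.2 h3.2
      · exact cb_one h.surf hu hN h1 h2
    · have h2 : w ∈ (lk G U x).erase u := (mem_union.1 hw).resolve_left h1
      rw [union_comm]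
      exact cb_one h.surf hx hN' h2 h1
  · have h2 := hcx.four
    have h3 := hcu.four
    omega

end Pool.Agent.H49.FS
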