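import Pool.Agent.H49.FS.ConA
import Pool.Agent.H49.FS.ConB

/-!
# Flag 2-spheres: contraction of an edge
-/

set_option autoImplicit false
set_option linter.unusedSectionVars false

open Finset

namespace Pool.Agent.H49.FS

open Pool.Agent.H73.GC (lk lk2 merge NoSq)
open Pool.Agent.H67.FS

variable {V : Type} [DecidableEq V] [Fintype V]

theorem con_conn {G : SimpleGraph V} {U : Finset V} (h : Con G U) {x u : V} (hx : x ∈ U) (hu : u ∈ U)
    (hxu : G.Adj x u) : Con (merge G x u) (U.erase x) := by
  classical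
  refine ⟨⟨u, mem_erase.2 ⟨hxu.ne', hu⟩⟩, fun P hP hne hcl => ?_⟩
  have hPU : P ⊆ U := fun a ha => (mem_erase.1 (hP ha)).2
  by_cases huP : u ∈ P
  · have h1 := h.2 (insert x P) (insert_subset hx hPU) ⟨x, mem_insert_self _ _⟩ (by
        intro a ha b hb hab
        by_cases hbx : b = x
        · rw [hbx]
          exact mem_insert_self _ _
        · refine mem_insert_of_mem ?_
          rcases mem_insert.1 ha with rfl | ha
          · by_cases hbu : b = u
            · rwa [hbu]
            · exact hcl u huP b (mem_erase.2 ⟨hbx, hb⟩) ((merge_u hbu).2 (Or.inr hab))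
          · exact hcl a ha b (mem_erase.2 ⟨hbx, hb⟩) (merge_le hab))
    rw [← h1, erase_insert fun h2 => (mem_erase.1 (hP h2)).1 rfl]
  · exfalso
    have h1 := h.2 P hPU hne (by
        intro a ha b hb hab
        have hau : a ≠ u := fun h2 => huP (h2 ▸ ha)
        by_cases hbx : b = x
        · subst hbx
          exact absurd (hcl a ha u (mem_erase.2 ⟨hxu.ne', hu⟩)
            ((merge_u hau).2 (Or.inr hab.symm)).symm) huP
        · exact hcl a ha b (mem_erase.2 ⟨hbx, hb⟩) (merge_le hab))
    rw [← h1] at hu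
    exact huP hu

/-- The contraction of an edge which is in no induced circuit with four vertices is again a flag
2-sphere. -/
theorem fs_merge {G : SimpleGraph V} {U : Finset V} (h : FS G U) {x u : V} (hx : x ∈ U) (hu : u ∈ U)
    (hxu : G.Adj x u) (hN : NoSq G U x u) : FS (merge G x u) (U.erase x) := by
  classical
  have hone : ∀ w ∈ (U.erase x).erase u,
      Cyc (merge G x u) (lk (merge G x u) (U.erase x) w) ∧
        (lk (merge G x u) (U.erase x) w).card + (if w ∈ lk2 G U x u then 1 else 0) =
          (lk G U w).card := by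
    intro w hw
    obtain ⟨hwu, hw1⟩ := mem_erase.1 hw
    obtain ⟨hwx, hwU⟩ := mem_erase.1 hw1
    by_cases hxw : G.Adj x w
    · by_cases huw : G.Adj u w
      · have h1 : w ∈ lk2 G U x u := mem_lk2.2 ⟨hwU, hxw, huw⟩
        rw [if_pos h1]
        exact con_two h hx hu hxu hN h1
      · rw [if_neg fun h1 => huw (mem_lk2.1 h1).2.2, add_zero]
        exact con_one h hx hu hxu hN hwU hwu hxw huw
    · rw [if_neg fun h1 => hxw (mem_lk2.1 h1).2.1, add_zero]
      have h1 := con_far h hu hxu hN hwU hwx hwu hxw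
      exact ⟨h1.2, by rw [h1.1]⟩
  have huU' : u ∈ U.erase x := mem_erase.2 ⟨hxu.ne', hu⟩
  have hnew := con_new h hx hu hxu hN
  refine ⟨⟨con_conn h.surf.con hx hu hxu, fun w hw => ?_⟩, ?_⟩
  · by_cases hwu : w = u
    · rw [hwu]
      exact hnew.1
    · exact (hone w (mem_erase.2 ⟨hwu, hw⟩)).1
  · have h1 := sum_congr rfl fun w hw => (hone w hw).2
    rw [sum_add_distrib, ← card_filter] at h1
    have h2 : ((U.erase x).erase u).filter (fun w => w ∈ lk2 G U x u) = lk2 G U x u := by
      ext w
      rw [mem_filter, mem_erase, mem_erase]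
      refine ⟨fun h3 => h3.2, fun h3 => ⟨?_, h3⟩⟩
      rw [mem_lk2] at h3
      exact ⟨h3.2.2.ne', h3.2.1.ne', h3.1⟩
    rw [h2, h.surf.card_lk2 hx hu hxu] at h1
    have h3 := h.euler
    rw [← add_sum_erase U _ hx, ← add_sum_erase (U.erase x) _ huU'] at h3
    rw [← add_sum_erase (U.erase x) _ huU']
    have h4 := card_erase_add_one hx
    have h5 := hnew.2
    omega

end Pool.Agent.H49.FS
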