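import Pool.Agent.H67.FS.Rank

/-!
# Flag 2-spheres: a circuit without one vertex is connected
-/

set_option autoImplicit false
set_option linter.unusedSectionVars false

open Finset

namespace Pool.Agent.H49.FS

open Pool.Agent.H73.GC (lk lk2 merge NoSq)
open Pool.Agent.H67.FS

variable {V : Type} [DecidableEq V] [Fintype V]

/-- The handshake lemma: the sum of the degrees is even. -/
theorem even_sum_deg (G : SimpleGraph V) (A : Finset V) : Even (∑ v ∈ A, (lk G A v).card) := by
  rw [deg_EE]
  exact even_two_mul _

/-- A circuit without one vertex `u` is connected. Let `A` be nonempty and closed in `Z.erase u`. If `A`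
contains none of the two neighbours of `u`, then `A` is closed in `Z`; if it contains both, then
`insert u A` is closed in `Z`; if it contains exactly one, then the sum of the degrees in `A` is
`2 |A| - 1`, against `even_sum_deg`. -/
theorem cyc_path {G : SimpleGraph V} {Z : Finset V} (h : Cyc G Z) {u : V} (hu : u ∈ Z) :
    Con G (Z.erase u) := by
  classical
  obtain ⟨p, q, hpq, he, hn⟩ := h.pair hu
  have hp : p ∈ Z ∧ G.Adj u p := mem_lk.1 (by rw [he]; exact mem_insert_self _ _)
  have hq : q ∈ Z ∧ G.Adj u q :=
    mem_lk.1 (by rw [he]; exact mem_insert_of_mem (mem_singleton_self _))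
  have hnb : ∀ a ∈ Z, G.Adj u a ↔ a = p ∨ a = q := by
    intro a ha
    constructor
    · intro h1
      have h2 : a ∈ lk G Z u := mem_lk.2 ⟨ha, h1⟩
      rwa [he, mem_insert, mem_singleton] at h2
    · rintro (rfl | rfl)
      · exact hp.2
      · exact hq.2
  refine ⟨⟨p, mem_erase.2 ⟨hp.2.ne', hp.1⟩⟩, fun A hA hne hcl => ?_⟩
  have h1 : ∀ a ∈ A, lk G A a = (lk G Z a).erase u := by
    intro a ha
    ext w
    rw [mem_erase, mem_lk, mem_lk]
    constructor
    · rintro ⟨hw, haw⟩
      exact ⟨(mem_erase.1 (hA hw)).1, (mem_erase.1 (hA hw)).2, haw⟩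
    · rintro ⟨hwu, hwZ, haw⟩
      exact ⟨hcl a ha w (mem_erase.2 ⟨hwu, hwZ⟩) haw, haw⟩
  have h4 : ∀ a ∈ A, (lk G A a).card + (if a = p ∨ a = q then 1 else 0) = 2 := by
    intro a ha
    have haZ := (mem_erase.1 (hA ha)).2
    rw [h1 a ha]
    have h5 := h.two a haZ
    by_cases hau : G.Adj u a
    · rw [if_pos ((hnb a haZ).1 hau), card_erase_of_mem (mem_lk.2 ⟨hu, hau.symm⟩), h5]
    · rw [if_neg fun h6 => hau ((hnb a haZ).2 h6),
        erase_eq_of_notMem (fun h6 => hau (mem_lk.1 h6).2.symm), h5]
  have h5 := sum_congr rfl h4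
  rw [sum_add_distrib, sum_const, smul_eq_mul, ← card_filter] at h5
  obtain ⟨k, hk⟩ := even_sum_deg G A
  have h3 : p ∈ A ↔ q ∈ A := by
    by_contra hcon
    have h6 : (A.filter fun a => a = p ∨ a = q).card = 1 := by
      by_cases hpA : p ∈ A
      · have hqA : q ∉ A := fun h7 => hcon ⟨fun _ => h7, fun _ => hpA⟩
        rw [show (A.filter fun a => a = p ∨ a = q) = {p} from ?_, card_singleton]
        ext a
        rw [mem_filter, mem_singleton]
        constructor
        · rintro ⟨ha, rfl | rfl⟩
          · rfl
          · exact absurd ha hqA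
        · rintro rfl
          exact ⟨hpA, Or.inl rfl⟩
      · have hqA : q ∈ A := by
          by_contra h7
          exact hcon ⟨fun h8 => absurd h8 hpA, fun h8 => absurd h8 h7⟩
        rw [show (A.filter fun a => a = p ∨ a = q) = {q} from ?_, card_singleton]
        ext a
        rw [mem_filter, mem_singleton]
        constructor
        · rintro ⟨ha, rfl | rfl⟩
          · exact absurd ha hpA
          · rfl
        · rintro rfl
          exact ⟨hqA, Or.inr rfl⟩
    omega
  by_cases hpA : p ∈ A
  · have h6 := h.con.2 (insert u A) (by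
        intro a ha
        rcases mem_insert.1 ha with rfl | ha
        · exact hu
        · exact (mem_erase.1 (hA ha)).2) ⟨u, mem_insert_self _ _⟩ (by
        intro a ha b hb hab
        rcases mem_insert.1 ha with rfl | ha
        · rcases (hnb b hb).1 hab with rfl | rfl
          · exact mem_insert_of_mem hpA
          · exact mem_insert_of_mem (h3.1 hpA)
        · by_cases hbu : b = u
          · rw [hbu]
            exact mem_insert_self _ _
          · exact mem_insert_of_mem (hcl a ha b (mem_erase.2 ⟨hbu, hb⟩) hab))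
    rw [← h6, erase_insert fun h7 => (mem_erase.1 (hA h7)).1 rfl]
  · exfalso
    have h6 := h.con.2 A (fun a ha => (mem_erase.1 (hA ha)).2) hne (by
        intro a ha b hb hab
        refine hcl a ha b (mem_erase.2 ⟨?_, hb⟩) hab
        rintro rfl
        rcases (hnb a (mem_erase.1 (hA ha)).2).1 hab.symm with rfl | rfl
        · exact hpA ha
        · exact hpA (h3.2 ha))
    rw [← h6] at hu
    exact (mem_erase.1 (hA hu)).1 rfl

end Pool.Agent.H49.FS
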