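import Pool.Agent.H67.FS.Side
import Pool.Agent.H49.FS.Path

/-!
# Flag 2-spheres: there is an edge in no induced circuit with four vertices, or a suspension
-/

set_option autoImplicit false
set_option linter.unusedSectionVars false

open Finset

namespace Pool.Agent.H49.FS

open Pool.Agent.H73.GC (lk lk2 merge NoSq)
open Pool.Agent.H67.FS

variable {V : Type} [DecidableEq V] [Fintype V]
variable {G : SimpleGraph V} {U : Finset V}

/-- a subset with two elements -/
theorem eq_pair {S : Finset V} (h : S.card = 2) {y z : V} (hy : y ∈ S) (hz : z ∈ S) (hyz : y ≠ z) :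
    S = {y, z} := by
  symm
  refine eq_of_subset_of_card_le ?_ ?_
  · intro t ht
    rw [mem_insert, mem_singleton] at ht
    rcases ht with rfl | rfl
    · exact hy
    · exact hz
  · rw [h, card_pair hyz]

/-- The crossing lemma. Let `a, b, c, d` be different vertices in the link of `v`, `a` and `c` adjacent to
`b`. Let `p` be a common neighbour of `a` and `c`, and `q` a common neighbour of `b` and `d`, both outside
of the star of `v`. Then `p = q`. -/
theorem cross (h : FS G U) {v a b c d p q : V} (hv : v ∈ U) (ha : a ∈ lk G U v) (hb : b ∈ lk G U v)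
    (hc : c ∈ lk G U v) (hd : d ∈ lk G U v) (hab : G.Adj a b) (hbc : G.Adj b c) (hac : a ≠ c)
    (hda : d ≠ a) (hdb : d ≠ b) (hdc : d ≠ c) (hp : p ∈ U) (hpv : p ≠ v) (hpn : ¬ G.Adj v p)
    (hpa : G.Adj p a) (hpc : G.Adj p c) (hq : q ∈ U) (hqv : q ≠ v) (hqn : ¬ G.Adj v q)
    (hqb : G.Adj q b) (hqd : G.Adj q d) : p = q := by
  classical
  by_contra hpq
  have hcyc := h.surf.cyc v hv
  have hnac : ¬ G.Adj a c := fun h1 => hcyc.noTri ha hb hc hab h1 hbc
  have hdl := hd
  rw [mem_lk] at ha hb hc hd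
  -- the circuit
  have hC : ({v, a, p, c} : Finset V) ⊆ U := by
    intro w hw
    simp only [mem_insert, mem_singleton] at hw
    rcases hw with rfl | rfl | rfl | rfl
    · exact hv
    · exact ha.1
    · exact hp
    · exact hc.1
  have hev : ∀ w ∈ ({v, a, p, c} : Finset V), Even (lk G {v, a, p, c} w).card := by
    have key : ∀ w y z : V, y ≠ z → lk G {v, a, p, c} w = {y, z} →
        Even (lk G {v, a, p, c} w).card := by
      intro w y z hyz he
      rw [he, card_pair hyz]
      exact even_two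
    intro w hw
    simp only [mem_insert, mem_singleton] at hw
    rcases hw with rfl | rfl | rfl | rfl
    · refine key _ a c hac ?_
      ext t
      rw [mem_lk]
      simp only [mem_insert, mem_singleton]
      constructor
      · rintro ⟨rfl | rfl | rfl | rfl, h1⟩
        · exact absurd rfl h1.ne
        · exact Or.inl rfl
        · exact absurd h1 hpn
        · exact Or.inr rfl
      · rintro (rfl | rfl)
        · exact ⟨Or.inr (Or.inl rfl), ha.2⟩
        · exact ⟨Or.inr (Or.inr (Or.inr rfl)), hc.2⟩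
    · refine key _ v p hpv.symm ?_
      ext t
      rw [mem_lk]
      simp only [mem_insert, mem_singleton]
      constructor
      · rintro ⟨rfl | rfl | rfl | rfl, h1⟩
        · exact Or.inl rfl
        · exact absurd rfl h1.ne
        · exact Or.inr rfl
        · exact absurd h1 hnac
      · rintro (rfl | rfl)
        · exact ⟨Or.inl rfl, ha.2.symm⟩
        · exact ⟨Or.inr (Or.inr (Or.inl rfl)), hpa.symm⟩
    · refine key _ a c hac ?_
      ext t
      rw [mem_lk]
      simp only [mem_insert, mem_singleton]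
      constructor
      · rintro ⟨rfl | rfl | rfl | rfl, h1⟩
        · exact absurd h1.symm hpn
        · exact Or.inl rfl
        · exact absurd rfl h1.ne
        · exact Or.inr rfl
      · rintro (rfl | rfl)
        · exact ⟨Or.inr (Or.inl rfl), hpa⟩
        · exact ⟨Or.inr (Or.inr (Or.inr rfl)), hpc⟩
    · refine key _ v p hpv.symm ?_
      ext t
      rw [mem_lk]
      simp only [mem_insert, mem_singleton]
      constructor
      · rintro ⟨rfl | rfl | rfl | rfl, h1⟩
        · exact Or.inl rfl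
        · exact absurd h1.symm hnac
        · exact Or.inr rfl
        · exact absurd rfl h1.ne
      · rintro (rfl | rfl)
        · exact ⟨Or.inl rfl, hc.2.symm⟩
        · exact ⟨Or.inr (Or.inr (Or.inl rfl)), hpc.symm⟩
  obtain ⟨A, hA, hcl, hsw⟩ := side h hC hev
  -- adjacent vertices outside of the circuit are on the same side
  have hsame : ∀ s ∈ U, ∀ t ∈ U, s ∉ ({v, a, p, c} : Finset V) → t ∉ ({v, a, p, c} : Finset V) →
      G.Adj s t → (s ∈ A ↔ t ∈ A) := fun s hs t ht hsC htC hst =>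
    ⟨fun h1 => hcl s h1 t ht htC hst, fun h1 => hcl t h1 s hs hsC hst.symm⟩
  -- a neighbour of `v` other than `a`, `c` is not on the circuit
  have hout : ∀ w, G.Adj v w → w ≠ a → w ≠ c → w ∉ ({v, a, p, c} : Finset V) := by
    intro w hvw hwa hwc h1
    simp only [mem_insert, mem_singleton] at h1
    rcases h1 with rfl | rfl | rfl | rfl
    · exact hvw.ne rfl
    · exact hwa rfl
    · exact hpn hvw
    · exact hwc rfl
  have hbC := hout b hb.2 hab.ne' hbc.ne
  have hdC := hout d hd.2 hda hdc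
  have hqC : q ∉ ({v, a, p, c} : Finset V) := by
    intro h1
    simp only [mem_insert, mem_singleton] at h1
    rcases h1 with rfl | rfl | rfl | rfl
    · exact hqv rfl
    · exact hqn ha.2
    · exact hpq rfl
    · exact hqn hc.2
  have hbd : b ∈ A ↔ d ∈ A :=
    (hsame q hq b hb.1 hqC hbC hqb).symm.trans (hsame q hq d hd.1 hqC hdC hqd)
  -- the edges `{v, a}` and `{v, c}`
  have hturn : ∀ e w : V, (e = a ∨ e = c) → w ∈ lk G U v → w ≠ b → G.Adj e w → (w ∈ A ↔ b ∉ A) := by
    intro e w he hw hwb hew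
    have hel : e ∈ lk G U v := by
      rcases he with rfl | rfl
      · exact mem_lk.2 ha
      · exact mem_lk.2 hc
    have heb : G.Adj e b := by
      rcases he with rfl | rfl
      · exact hab
      · exact hbc.symm
    have hwa : w ≠ a := by
      rintro rfl
      rcases he with rfl | rfl
      · exact hew.ne rfl
      · exact hnac hew.symm
    have hwc : w ≠ c := by
      rintro rfl
      rcases he with rfl | rfl
      · exact hnac hew
      · exact hew.ne rfl
    have h1 : lk2 G U v e = {w, b} := by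
      refine eq_pair (h.surf.card_lk2 hv (mem_lk.1 hel).1 (mem_lk.1 hel).2) ?_ ?_ hwb
      · exact mem_lk2.2 ⟨(mem_lk.1 hw).1, (mem_lk.1 hw).2, hew⟩
      · exact mem_lk2.2 ⟨hb.1, hb.2, heb⟩
    refine hsw v (by simp) e ?_ (mem_lk.1 hel).2 w b hwb h1 (hout w (mem_lk.1 hw).2 hwa hwc) hbC
    simp only [mem_insert, mem_singleton]
    rcases he with rfl | rfl
    · exact Or.inr (Or.inl rfl)
    · exact Or.inr (Or.inr (Or.inr rfl))
  have hall : ∀ w ∈ (lk G U v).erase b, w = a ∨ w = c ∨ (w ∈ A ↔ b ∉ A) := by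
    refine (cyc_path hcyc (mem_lk.2 hb)).all (a₀ := a) (mem_erase.2 ⟨hab.ne, mem_lk.2 ha⟩)
      (Or.inl rfl) ?_
    intro w hw hPw w' hw' hww'
    obtain ⟨hwb, hwl⟩ := mem_erase.1 hw
    obtain ⟨hwb', hwl'⟩ := mem_erase.1 hw'
    by_cases h1 : w' = a
    · exact Or.inl h1
    by_cases h2 : w' = c
    · exact Or.inr (Or.inl h2)
    refine Or.inr (Or.inr ?_)
    by_cases h3 : w = a ∨ w = c
    · exact hturn w w' h3 hwl' hwb' hww'
    · rw [not_or] at h3
      have h4 : w ∈ A ↔ b ∉ A := by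
        rcases hPw with h5 | h5 | h5
        · exact absurd h5 h3.1
        · exact absurd h5 h3.2
        · exact h5
      have h5 := hsame w (mem_lk.1 hwl).1 w' (mem_lk.1 hwl').1
        (hout w (mem_lk.1 hwl).2 h3.1 h3.2) (hout w' (mem_lk.1 hwl').2 h1 h2) hww'
      exact h5.symm.trans h4
  rcases hall d (mem_erase.2 ⟨hdb, hdl⟩) with h1 | h1 | h1
  · exact hda h1
  · exact hdc h1
  · by_cases h2 : b ∈ A
    · exact (h1.1 (hbd.1 h2)) h2
    · exact h2 (hbd.2 (h1.2 h2))

/-- Two vertices of a circuit with at most five vertices which are not adjacent have a common neighbour. -/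
theorem cyc_common {C : Finset V} (h : Cyc G C) (h5 : C.card ≤ 5) {s t : V} (hs : s ∈ C) (ht : t ∈ C)
    (hst : s ≠ t) (hn : ¬ G.Adj s t) : ∃ b ∈ C, G.Adj s b ∧ G.Adj b t := by
  classical
  by_contra hcon
  have h1 : Disjoint (lk G C s) (lk G C t) := by
    rw [disjoint_left]
    intro b hb1 hb2
    rw [mem_lk] at hb1 hb2
    exact hcon ⟨b, hb1.1, hb1.2, hb2.2.symm⟩
  have h2 : lk G C s ∪ lk G C t ⊆ (C.erase s).erase t := by
    intro b hb
    rw [mem_erase, mem_erase]
    rcases mem_union.1 hb with h6 | h6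
    · rw [mem_lk] at h6
      refine ⟨?_, h6.2.ne', h6.1⟩
      rintro rfl
      exact hn h6.2
    · rw [mem_lk] at h6
      refine ⟨h6.2.ne', ?_, h6.1⟩
      rintro rfl
      exact hn h6.2.symm
  have h3 := card_le_card h2
  rw [card_union_of_disjoint h1, h.two s hs, h.two t ht, card_erase_of_mem (mem_erase.2 ⟨hst.symm, ht⟩),
    card_erase_of_mem hs] at h3
  omega

/-- A circuit which contains a circuit `a, b, c, d` is equal to it. -/
theorem cyc_sq {C : Finset V} (h : Cyc G C) {a b c d : V} (ha : a ∈ C) (hb : b ∈ C) (hc : c ∈ C)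
    (hd : d ∈ C) (hac : a ≠ c) (hbd : b ≠ d) (hab : G.Adj a b) (hbc : G.Adj b c) (hcd : G.Adj c d)
    (hda : G.Adj d a) : C = {a, b, c, d} := by
  have key : ∀ w y z t : V, w ∈ C → y ∈ C → z ∈ C → y ≠ z → G.Adj w y → G.Adj w z → t ∈ C → G.Adj w t →
      t = y ∨ t = z := by
    intro w y z t hw hy hz hyz hwy hwz ht hwt
    have h1 : t ∈ lk G C w := mem_lk.2 ⟨ht, hwt⟩
    rw [eq_pair (h.two w hw) (mem_lk.2 ⟨hy, hwy⟩) (mem_lk.2 ⟨hz, hwz⟩) hyz, mem_insert,
      mem_singleton] at h1
    exact h1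
  symm
  refine h.con.2 _ ?_ ⟨a, mem_insert_self _ _⟩ ?_
  · intro w hw
    simp only [mem_insert, mem_singleton] at hw
    rcases hw with rfl | rfl | rfl | rfl <;> assumption
  · intro w hw t ht hwt
    simp only [mem_insert, mem_singleton] at hw ⊢
    rcases hw with rfl | rfl | rfl | rfl
    · rcases key w b d t ha hb hd hbd hab hda.symm ht hwt with h1 | h1
      · exact Or.inr (Or.inl h1)
      · exact Or.inr (Or.inr (Or.inr h1))
    · rcases key w a c t hb ha hc hac hab.symm hbc ht hwt with h1 | h1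
      · exact Or.inl h1
      · exact Or.inr (Or.inr (Or.inl h1))
    · rcases key w b d t hc hb hd hbd hbc.symm hcd ht hwt with h1 | h1
      · exact Or.inr (Or.inl h1)
      · exact Or.inr (Or.inr (Or.inr h1))
    · rcases key w a c t hd ha hc hac hda hcd.symm ht hwt with h1 | h1
      · exact Or.inl h1
      · exact Or.inr (Or.inr (Or.inl h1))

/-- Let `v` have at most five neighbours and assume that no edge `{v, s}` satisfies `NoSq`. Let `s` be a
neighbour of `v`. By `¬ NoSq G U v s` there are `p` (outside of the star of `v`) and `t` in the link of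
`v`, `t ≠ s` not adjacent to `s`, both adjacent to `p`. Let `b` be a common neighbour of `s` and `t` in
the link of `v` (`cyc_common`). By `¬ NoSq G U v b` there are `q` and `d` for `b`. `cross` gives
`p = q`. -/
theorem exists_star (h : FS G U) {v : V} (hv : v ∈ U) (h5 : (lk G U v).card ≤ 5)
    (hno : ∀ s ∈ lk G U v, ¬ NoSq G U v s) :
    ∃ s t b d p, s ∈ lk G U v ∧ t ∈ lk G U v ∧ b ∈ lk G U v ∧ d ∈ lk G U v ∧ p ∈ U ∧ s ≠ t ∧ s ≠ b ∧
      s ≠ d ∧ t ≠ b ∧ t ≠ d ∧ b ≠ d ∧ G.Adj s b ∧ G.Adj b t ∧ p ≠ v ∧ ¬ G.Adj v p ∧ G.Adj p s ∧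
      G.Adj p t ∧ G.Adj p b ∧ G.Adj p d := by
  classical
  have hcyc := h.surf.cyc v hv
  have key : ∀ s ∈ lk G U v, ∃ p t, p ∈ U ∧ t ∈ lk G U v ∧ p ≠ v ∧ ¬ G.Adj v p ∧ G.Adj p s ∧
      G.Adj p t ∧ s ≠ t ∧ ¬ G.Adj s t := by
    intro s hs
    have h1 := hno s hs
    unfold NoSq at h1
    push Not at h1
    obtain ⟨p, hp, t, ht, hpv, hts, hsp, hvt, hpt, hvp, hst⟩ := h1
    exact ⟨p, t, hp, mem_lk.2 ⟨ht, hvt⟩, hpv, hvp, hsp.symm, hpt, hts.symm, hst⟩
  obtain ⟨s, hs⟩ := hcyc.con.1
  obtain ⟨p, t, hp, ht, hpv, hvp, hps, hpt, hst, hnst⟩ := key s hs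
  obtain ⟨b, hb, hsb, hbt⟩ := cyc_common hcyc h5 hs ht hst hnst
  obtain ⟨q, d, hq, hd, hqv, hvq, hqb, hqd, hbd, hnbd⟩ := key b hb
  have hds : d ≠ s := by
    rintro rfl
    exact hnbd hsb.symm
  have hdt : d ≠ t := by
    rintro rfl
    exact hnbd hbt
  have hpq : p = q := cross h hv hs hb ht hd hsb hbt hst hds hbd.symm hdt hp hpv hvp hps hpt hq hqv hvq
    hqb hqd
  subst hpq
  exact ⟨s, t, b, d, p, hs, ht, hb, hd, hp, hst, hsb.ne, hds.symm, hbt.ne', hdt.symm, hbd, hsb, hbt,
    hpv, hvp, hps, hpt, hqb, hqd⟩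

/-- If `v` has at most five neighbours, then `b` of `exists_star` has four neighbours `v, s, p, t`. -/
theorem five_four (h : FS G U) {v : V} (hv : v ∈ U) (h5 : (lk G U v).card ≤ 5)
    (hno : ∀ s ∈ lk G U v, ¬ NoSq G U v s) : ∃ b ∈ U, (lk G U b).card = 4 := by
  classical
  obtain ⟨s, t, b, d, p, hs, ht, hb, hd, hp, hst, hsb', hsd, htb, htd, hbd, hsb, hbt, hpv, hvp, hps,
    hpt, hpb, hpd⟩ := exists_star h hv h5 hno
  rw [mem_lk] at hs ht hb hd
  refine ⟨b, hb.1, ?_⟩
  rw [cyc_sq (h.surf.cyc b hb.1) (mem_lk.2 ⟨hv, hb.2.symm⟩) (mem_lk.2 ⟨hs.1, hsb.symm⟩)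
    (mem_lk.2 ⟨hp, hpb.symm⟩) (mem_lk.2 ⟨ht.1, hbt⟩) hpv.symm hst hs.2 hps.symm hpt ht.2.symm,
    card_insert_of_notMem, card_insert_of_notMem, card_pair hpt.ne]
  · simp only [mem_insert, mem_singleton, not_or]
    exact ⟨hps.ne', hst⟩
  · simp only [mem_insert, mem_singleton, not_or]
    exact ⟨hs.2.ne, hpv.symm, ht.2.ne⟩

/-- If `v` has four neighbours, then `p` is adjacent to all of them, so `lk p = lk v`, the link of a
neighbour `w` of `v` is the circuit `v, y, p, z` with `y, z` the neighbours of `w` in `lk v` (`cyc_sq`),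
and `U = {v, p} ∪ lk v`. -/
theorem four_susp (h : FS G U) {v : V} (hv : v ∈ U) (h4 : (lk G U v).card = 4)
    (hno : ∀ s ∈ lk G U v, ¬ NoSq G U v s) :
    ∃ a ∈ U, ∃ b ∈ U, a ≠ b ∧ ¬ G.Adj a b ∧ ∀ w ∈ U, w ≠ a → w ≠ b → G.Adj a w ∧ G.Adj b w := by
  classical
  obtain ⟨s, t, b, d, p, hs, ht, hb, hd, hp, hst, hsb', hsd, htb, htd, hbd, hsb, hbt, hpv, hvp, hps,
    hpt, hpb, hpd⟩ := exists_star h hv (by omega) hno
  have hcyc := h.surf.cyc v hv
  -- the link of `v`
  have hset : ({s, t, b, d} : Finset V) = lk G U v := by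
    refine eq_of_subset_of_card_le ?_ ?_
    · intro w hw
      simp only [mem_insert, mem_singleton] at hw
      rcases hw with rfl | rfl | rfl | rfl <;> assumption
    · rw [h4, card_insert_of_notMem, card_insert_of_notMem, card_pair hbd]
      · simp only [mem_insert, mem_singleton, not_or]
        exact ⟨htb, htd⟩
      · simp only [mem_insert, mem_singleton, not_or]
        exact ⟨hst, hsb', hsd⟩
  have hpl : ∀ w ∈ lk G U v, G.Adj p w := by
    intro w hw
    rw [← hset] at hw
    simp only [mem_insert, mem_singleton] at hw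
    rcases hw with rfl | rfl | rfl | rfl <;> assumption
  -- the links of the neighbours of `v`
  have hlink : ∀ w ∈ lk G U v, ∀ e ∈ U, G.Adj w e → e = v ∨ e = p ∨ e ∈ lk G U v := by
    intro w hw e he hwe
    obtain ⟨y, z, hyz, hyz', -⟩ := hcyc.pair hw
    have hy : y ∈ lk G U v ∧ G.Adj w y := mem_lk.1 (by rw [hyz']; exact mem_insert_self _ _)
    have hz : z ∈ lk G U v ∧ G.Adj w z :=
      mem_lk.1 (by rw [hyz']; exact mem_insert_of_mem (mem_singleton_self _))
    have hw' := mem_lk.1 hw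
    have hy' := mem_lk.1 hy.1
    have hz' := mem_lk.1 hz.1
    have h1 : e ∈ lk G U w := mem_lk.2 ⟨he, hwe⟩
    rw [cyc_sq (h.surf.cyc w hw'.1) (mem_lk.2 ⟨hv, hw'.2.symm⟩) (mem_lk.2 ⟨hy'.1, hy.2⟩)
      (mem_lk.2 ⟨hp, (hpl w hw).symm⟩) (mem_lk.2 ⟨hz'.1, hz.2⟩) hpv.symm hyz hy'.2
      (hpl y hy.1).symm (hpl z hz.1) hz'.2.symm] at h1
    simp only [mem_insert, mem_singleton] at h1
    rcases h1 with rfl | rfl | rfl | rfl
    · exact Or.inl rfl
    · exact Or.inr (Or.inr hy.1)
    · exact Or.inr (Or.inl rfl)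
    · exact Or.inr (Or.inr hz.1)
  -- the link of `p`
  have hplink : lk G U v = lk G U p := by
    refine (h.surf.cyc p hp).con.2 _ ?_ hcyc.con.1 ?_
    · intro w hw
      exact mem_lk.2 ⟨(mem_lk.1 hw).1, hpl w hw⟩
    · intro w hw e he hwe
      rw [mem_lk] at he
      rcases hlink w hw e he.1 hwe with h1 | h1 | h1
      · rw [h1] at he
        exact absurd he.2.symm hvp
      · rw [h1] at he
        exact absurd he.2 (G.loopless.irrefl p)
      · exact h1
  have hU : insert v (insert p (lk G U v)) = U := by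
    refine h.surf.con.2 _ ?_ ⟨v, mem_insert_self _ _⟩ ?_
    · intro w hw
      rcases mem_insert.1 hw with rfl | hw
      · exact hv
      · rcases mem_insert.1 hw with rfl | hw
        · exact hp
        · exact (mem_lk.1 hw).1
    · intro w hw e he hwe
      rw [mem_insert, mem_insert] at hw ⊢
      rcases hw with rfl | rfl | hw
      · exact Or.inr (Or.inr (mem_lk.2 ⟨he, hwe⟩))
      · refine Or.inr (Or.inr ?_)
        rw [hplink]
        exact mem_lk.2 ⟨he, hwe⟩
      · exact hlink w hw e he hwe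
  refine ⟨v, hv, p, hp, hpv.symm, hvp, fun w hw hwv hwp => ?_⟩
  rw [← hU, mem_insert, mem_insert] at hw
  rcases hw with h1 | h1 | h1
  · exact absurd h1 hwv
  · exact absurd h1 hwp
  · exact ⟨(mem_lk.1 h1).2, hpl w h1⟩

/-- A flag 2-sphere is a suspension or has an edge which is in no induced circuit with four vertices: the
mean degree is less than six, so there is a vertex with at most five neighbours. -/
theorem exists_edge (h : FS G U) :
    (∃ x ∈ U, ∃ u ∈ U, G.Adj x u ∧ NoSq G U x u) ∨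
    ∃ a ∈ U, ∃ b ∈ U, a ≠ b ∧ ¬ G.Adj a b ∧ ∀ w ∈ U, w ≠ a → w ≠ b → G.Adj a w ∧ G.Adj b w := by
  classical
  by_cases hcon : ∃ x ∈ U, ∃ u ∈ U, G.Adj x u ∧ NoSq G U x u
  · exact Or.inl hcon
  right
  have hno : ∀ v ∈ U, ∀ s ∈ lk G U v, ¬ NoSq G U v s := fun v hv s hs hN =>
    hcon ⟨v, hv, s, (mem_lk.1 hs).1, (mem_lk.1 hs).2, hN⟩
  obtain ⟨v, hv, h5⟩ : ∃ v ∈ U, (lk G U v).card ≤ 5 := by
    by_contra h1
    push Not at h1
    have h2 : ∑ v ∈ U, 6 ≤ ∑ v ∈ U, (lk G U v).card := sum_le_sum fun v hv => h1 v hv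
    rw [sum_const, smul_eq_mul] at h2
    have h3 := h.euler
    omega
  obtain ⟨b, hb, h4⟩ := five_four h hv h5 (hno v hv)
  exact four_susp h hb h4 (hno b hb)

end Pool.Agent.H49.FS
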