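import Pool.Agent.H49.FS.Path

/-!
# Flag 2-spheres: contraction of an edge, the links of the vertices other than the new one

`x` and `u` are adjacent, `merge G x u` on `U.erase x` is the contraction. Write `H = merge G x u`.
-/

set_option autoImplicit false
set_option linter.unusedSectionVars false

open Finset

namespace Pool.Agent.H49.FS

open Pool.Agent.H73.GC (lk lk2 merge NoSq)
open Pool.Agent.H67.FS

variable {V : Type} [DecidableEq V] [Fintype V]

theorem merge_ne {G : SimpleGraph V} {x u a b : V} (ha : a ≠ u) (hb : b ≠ u) :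
    (merge G x u).Adj a b ↔ G.Adj a b := by
  constructor
  · rintro ⟨_, h | h | h⟩
    · exact h
    · exact absurd h.1 ha
    · exact absurd h.1 hb
  · exact fun h => ⟨h.ne, Or.inl h⟩

theorem merge_u {G : SimpleGraph V} {x u b : V} (hb : b ≠ u) :
    (merge G x u).Adj u b ↔ G.Adj u b ∨ G.Adj x b := by
  constructor
  · rintro ⟨_, h | h | h⟩
    · exact Or.inl h
    · exact Or.inr h.2
    · exact absurd h.1 hb
  · rintro (h | h)
    · exact ⟨h.ne, Or.inl h⟩
    · exact ⟨hb.symm, Or.inr (Or.inl ⟨rfl, h⟩)⟩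

theorem merge_le {G : SimpleGraph V} {x u a b : V} (h : G.Adj a b) : (merge G x u).Adj a b :=
  ⟨h.ne, Or.inl h⟩

/-- `w` not adjacent to `x`: nothing changes -/
theorem con_far {G : SimpleGraph V} {U : Finset V} (h : FS G U) {x u w : V} (hu : u ∈ U)
    (hxu : G.Adj x u) (hN : NoSq G U x u) (hw : w ∈ U) (hwx : w ≠ x) (hwu : w ≠ u)
    (hn : ¬ G.Adj x w) :
    lk (merge G x u) (U.erase x) w = lk G U w ∧
      Cyc (merge G x u) (lk (merge G x u) (U.erase x) w) := by
  have h1 : lk (merge G x u) (U.erase x) w = lk G U w := by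
    ext a
    rw [mem_lk, mem_lk, mem_erase]
    constructor
    · rintro ⟨⟨hax, haU⟩, hadj⟩
      refine ⟨haU, ?_⟩
      by_cases hau : a = u
      · subst hau
        rcases (merge_u hwu).1 hadj.symm with h2 | h2
        · exact h2.symm
        · exact absurd h2 hn
      · exact (merge_ne hwu hau).1 hadj
    · rintro ⟨haU, hadj⟩
      refine ⟨⟨?_, haU⟩, merge_le hadj⟩
      rintro rfl
      exact hn hadj.symm
  refine ⟨h1, ?_⟩
  rw [h1]
  refine (h.surf.cyc w hw).congr fun a ha b hb => ?_
  rw [mem_lk] at ha hb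
  have key : ∀ c ∈ U, G.Adj w u → G.Adj w c → G.Adj x c → c ≠ u → G.Adj u c := by
    intro c hc hwu' hwc hxc hcu
    rcases hN w hw c hc hwx hcu hwu'.symm hxc hwc with h2 | h2
    · exact absurd h2 hn
    · exact h2
  constructor
  · exact merge_le
  · intro hab
    by_cases hau : a = u
    · subst hau
      have hbu : b ≠ a := hab.ne'
      rcases (merge_u hbu).1 hab with h2 | h2
      · exact h2
      · exact key b hb.1 ha.2 hb.2 h2 hbu
    · by_cases hbu : b = u
      · subst hbu
        rcases (merge_u hau).1 hab.symm with h2 | h2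
        · exact h2.symm
        · exact (key a ha.1 hb.2 ha.2 h2 hau).symm
      · exact (merge_ne hau hbu).1 hab

/-- `w` adjacent to `x` and not to `u`: `x` is replaced by `u` (`Cyc.map`) -/
theorem con_one {G : SimpleGraph V} {U : Finset V} (h : FS G U) {x u w : V} (hx : x ∈ U) (hu : u ∈ U)
    (hxu : G.Adj x u) (hN : NoSq G U x u) (hw : w ∈ U) (hwu : w ≠ u) (hxw : G.Adj x w)
    (hn : ¬ G.Adj u w) :
    Cyc (merge G x u) (lk (merge G x u) (U.erase x) w) ∧
      (lk (merge G x u) (U.erase x) w).card = (lk G U w).card := by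
  have hulk : u ∉ lk G U w := fun h1 => hn (mem_lk.1 h1).2.symm
  have h1 : lk (merge G x u) (U.erase x) w = (lk G U w).map (Equiv.swap x u).toEmbedding := by
    ext a
    rw [mem_lk, mem_erase, mem_map]
    constructor
    · rintro ⟨⟨hax, haU⟩, hadj⟩
      by_cases hau : a = u
      · exact ⟨x, mem_lk.2 ⟨hx, hxw.symm⟩, by rw [hau]; exact Equiv.swap_apply_left _ _⟩
      · exact ⟨a, mem_lk.2 ⟨haU, (merge_ne hwu hau).1 hadj⟩, Equiv.swap_apply_of_ne_of_ne hax hau⟩
    · rintro ⟨b, hb, rfl⟩
      by_cases hbx : b = x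
      · subst hbx
        have h2 : (Equiv.swap b u).toEmbedding b = u := Equiv.swap_apply_left _ _
        rw [h2]
        exact ⟨⟨hxu.ne', hu⟩, ((merge_u hwu).2 (Or.inr hxw)).symm⟩
      · have hbu : b ≠ u := fun h2 => hulk (h2 ▸ hb)
        have h2 : (Equiv.swap x u).toEmbedding b = b := Equiv.swap_apply_of_ne_of_ne hbx hbu
        rw [h2]
        rw [mem_lk] at hb
        exact ⟨⟨hbx, hb.1⟩, merge_le hb.2⟩
  rw [h1]
  refine ⟨(h.surf.cyc w hw).map (Equiv.swap x u) fun a ha b hb => ?_, card_map _⟩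
  have hau : a ≠ u := fun h2 => hulk (h2 ▸ ha)
  have hbu : b ≠ u := fun h2 => hulk (h2 ▸ hb)
  rw [mem_lk] at ha hb
  have key : ∀ c ∈ U, G.Adj w c → c ≠ x → G.Adj u c → G.Adj x c := by
    intro c hc hwc hcx huc
    rcases hN c hc w hw hcx hwu huc hxw hwc.symm with h2 | h2
    · exact h2
    · exact absurd h2 hn
  by_cases hax : a = x
  · by_cases hbx : b = x
    · rw [hax, hbx]
      exact ⟨fun h2 => absurd rfl h2.ne, fun h2 => absurd rfl h2.ne⟩
    · rw [hax, Equiv.swap_apply_left, Equiv.swap_apply_of_ne_of_ne hbx hbu, merge_u hbu]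
      exact ⟨Or.inr, fun h2 => h2.elim (key b hb.1 hb.2 hbx) id⟩
  · by_cases hbx : b = x
    · rw [hbx, Equiv.swap_apply_left, Equiv.swap_apply_of_ne_of_ne hax hau, (merge G x u).adj_comm,
        merge_u hau, G.adj_comm]
      exact ⟨Or.inr, fun h2 => h2.elim (key a ha.1 ha.2 hax) id⟩
    · rw [Equiv.swap_apply_of_ne_of_ne hax hau, Equiv.swap_apply_of_ne_of_ne hbx hbu,
        merge_ne hau hbu]

/-- `w` adjacent to `x` and to `u`: the edge `{x, u}` of the circuit `lk G U w` is contracted. The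
circuit has at least five vertices, else it would be an induced circuit `x, u, s, t` against `NoSq`. -/
theorem con_two {G : SimpleGraph V} {U : Finset V} (h : FS G U) {x u w : V} (hx : x ∈ U) (hu : u ∈ U)
    (hxu : G.Adj x u) (hN : NoSq G U x u) (hw : w ∈ lk2 G U x u) :
    Cyc (merge G x u) (lk (merge G x u) (U.erase x) w) ∧
      (lk (merge G x u) (U.erase x) w).card + 1 = (lk G U w).card := by
  classical
  obtain ⟨hwU, hxw, huw⟩ := mem_lk2.1 hw
  have hwu : w ≠ u := huw.ne'
  have hc := h.surf.cyc w hwU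
  have h1 : lk (merge G x u) (U.erase x) w = (lk G U w).erase x := by
    ext a
    rw [mem_lk, mem_erase, mem_erase, mem_lk, and_assoc]
    refine and_congr_right fun hax => and_congr_right fun haU => ?_
    by_cases hau : a = u
    · subst hau
      exact ⟨fun _ => huw.symm, fun h2 => merge_le h2⟩
    · exact merge_ne hwu hau
  rw [h1]
  have hxZ : x ∈ lk G U w := mem_lk.2 ⟨hx, hxw.symm⟩
  have huZ : u ∈ lk G U w := mem_lk.2 ⟨hu, huw.symm⟩
  have hZU : lk G U w ⊆ U := lk_sub G U w
  clear h1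
  generalize lk G U w = Z at *
  -- the other neighbour of `u`
  obtain ⟨s, hs⟩ : ∃ s, (lk G Z u).erase x = {s} := by
    rw [← card_eq_one, card_erase_of_mem (mem_lk.2 ⟨hxZ, hxu.symm⟩), hc.two u huZ]
  obtain ⟨t, ht⟩ : ∃ t, (lk G Z x).erase u = {t} := by
    rw [← card_eq_one, card_erase_of_mem (mem_lk.2 ⟨huZ, hxu⟩), hc.two x hxZ]
  have hs1 : s ≠ x ∧ s ∈ Z ∧ G.Adj u s := by
    have h2 : s ∈ (lk G Z u).erase x := by rw [hs]; exact mem_singleton_self _
    rwa [mem_erase, mem_lk] at h2
  have ht1 : t ≠ u ∧ t ∈ Z ∧ G.Adj x t := by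
    have h2 : t ∈ (lk G Z x).erase u := by rw [ht]; exact mem_singleton_self _
    rwa [mem_erase, mem_lk] at h2
  have hs2 : ∀ a ∈ Z, a ≠ x → G.Adj u a → a = s := by
    intro a ha hax hua
    have h2 : a ∈ (lk G Z u).erase x := mem_erase.2 ⟨hax, mem_lk.2 ⟨ha, hua⟩⟩
    rwa [hs, mem_singleton] at h2
  have ht2 : ∀ a ∈ Z, a ≠ u → G.Adj x a → a = t := by
    intro a ha hau hxa
    have h2 : a ∈ (lk G Z x).erase u := mem_erase.2 ⟨hau, mem_lk.2 ⟨ha, hxa⟩⟩
    rwa [ht, mem_singleton] at h2
  have hxs : ¬ G.Adj x s := fun h2 => hc.noTri hxZ huZ hs1.2.1 hxu h2 hs1.2.2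
  have hut : ¬ G.Adj u t := fun h2 => hc.noTri hxZ huZ ht1.2.1 hxu ht1.2.2 h2
  have hst : s ≠ t := fun h2 => hut (h2 ▸ hs1.2.2)
  have hnst : ¬ G.Adj s t := by
    intro h2
    rcases hN s (hZU hs1.2.1) t (hZU ht1.2.1) hs1.1 ht1.1 hs1.2.2 ht1.2.2 h2 with h3 | h3
    · exact hxs h3
    · exact hut h3
  -- at least five vertices
  have h5 : 5 ≤ Z.card := by
    by_contra hlt
    have h4 := hc.four
    have h6 : ({x, u, s, t} : Finset V) = Z := by
      refine eq_of_subset_of_card_le ?_ ?_
      · intro a ha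
        simp only [mem_insert, mem_singleton] at ha
        rcases ha with rfl | rfl | rfl | rfl
        · exact hxZ
        · exact huZ
        · exact hs1.2.1
        · exact ht1.2.1
      · have h7 : ({x, u, s, t} : Finset V).card = 4 := by
          rw [card_insert_of_notMem, card_insert_of_notMem, card_pair hst]
          · simp only [mem_insert, mem_singleton, not_or]
            exact ⟨hs1.2.2.ne, ht1.1.symm⟩
          · simp only [mem_insert, mem_singleton, not_or]
            exact ⟨hxu.ne, hs1.1.symm, ht1.2.2.ne⟩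
        omega
    have h7 : lk G Z s ⊆ {u} := by
      intro a ha
      rw [mem_lk, ← h6] at ha
      obtain ⟨h8, h9⟩ := ha
      simp only [mem_insert, mem_singleton] at h8
      rcases h8 with rfl | rfl | rfl | rfl
      · exact absurd h9.symm hxs
      · exact mem_singleton_self _
      · exact absurd rfl h9.ne
      · exact absurd h9 hnst
    have h8 := card_le_card h7
    rw [hc.two s hs1.2.1, card_singleton] at h8
    omega
  refine ⟨⟨?_, ?_, ?_⟩, card_erase_add_one hxZ⟩
  · have h2 := cyc_path hc hxZ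
    refine ⟨h2.1, fun P hP hne hcl => h2.2 P hP hne fun a ha b hb hab => hcl a ha b hb (merge_le hab)⟩
  · intro a ha
    obtain ⟨hax, haZ⟩ := mem_erase.1 ha
    by_cases hau : a = u
    · rw [show lk (merge G x u) (Z.erase x) a = {s, t} from ?_, card_pair hst]
      ext b
      rw [mem_lk, mem_erase, mem_insert, mem_singleton, hau]
      constructor
      · rintro ⟨⟨hbx, hbZ⟩, hadj⟩
        have hbu : b ≠ u := hadj.ne'
        rcases (merge_u hbu).1 hadj with h2 | h2
        · exact Or.inl (hs2 b hbZ hbx h2)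
        · exact Or.inr (ht2 b hbZ hbu h2)
      · rintro (rfl | rfl)
        · exact ⟨⟨hs1.1, hs1.2.1⟩, merge_le hs1.2.2⟩
        · exact ⟨⟨ht1.2.2.ne', ht1.2.1⟩, (merge_u ht1.1).2 (Or.inr ht1.2.2)⟩
    · by_cases hxa : G.Adj x a
      · have hat : a = t := ht2 a haZ hau hxa
        have hua : u ∉ (lk G Z a).erase x := fun h2 => hut (hat ▸ (mem_lk.1 (mem_erase.1 h2).2).2.symm)
        rw [show lk (merge G x u) (Z.erase x) a = insert u ((lk G Z a).erase x) from ?_,
          card_insert_of_notMem hua, card_erase_of_mem (mem_lk.2 ⟨hxZ, hxa.symm⟩), hc.two a haZ]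
        ext b
        rw [mem_lk, mem_erase, mem_insert, mem_erase, mem_lk]
        constructor
        · rintro ⟨⟨hbx, hbZ⟩, hadj⟩
          by_cases hbu : b = u
          · exact Or.inl hbu
          · exact Or.inr ⟨hbx, hbZ, (merge_ne hau hbu).1 hadj⟩
        · rintro (rfl | ⟨hbx, hbZ, hab⟩)
          · exact ⟨⟨hxu.ne', huZ⟩, ((merge_u hau).2 (Or.inr hxa)).symm⟩
          · exact ⟨⟨hbx, hbZ⟩, merge_le hab⟩
      · rw [show lk (merge G x u) (Z.erase x) a = lk G Z a from ?_, hc.two a haZ]
        ext b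
        rw [mem_lk, mem_erase, mem_lk]
        constructor
        · rintro ⟨⟨hbx, hbZ⟩, hadj⟩
          refine ⟨hbZ, ?_⟩
          by_cases hbu : b = u
          · subst hbu
            rcases (merge_u hau).1 hadj.symm with h2 | h2
            · exact h2.symm
            · exact absurd h2 hxa
          · exact (merge_ne hau hbu).1 hadj
        · rintro ⟨hbZ, hab⟩
          refine ⟨⟨?_, hbZ⟩, merge_le hab⟩
          rintro rfl
          exact hxa hab.symm
  · rw [card_erase_of_mem hxZ]
    omega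

end Pool.Agent.H49.FS
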