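import Pool.Agent.H73.GC.Del
import Pool.Agent.H73.GC.Rem
import Pool.Agent.H73.GC.Merge
import Pool.Agent.H73.GC.SuspB
import Pool.Agent.H73.GC.Cone
import Pool.Agent.H49.FS.Edge
import Pool.Agent.H49.FS.Contr

/-!
# Flag 2-spheres: the growth vanishes in all degrees at least two, for all full subcomplexes
-/

set_option autoImplicit false
set_option linter.unusedSectionVars false

open Finset

namespace Pool.Agent.H49.FS

open Pool.Agent.H73.GC
open Pool.Agent.H67.FS

variable {V : Type} [DecidableEq V] [Fintype V]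
variable {G : SimpleGraph V}

theorem lk_mono {A U : Finset V} (hA : A ⊆ U) (v : V) : lk G A v ⊆ lk G U v := by
  intro w hw
  rw [mem_lk] at hw ⊢
  exact ⟨hA hw.1, hw.2⟩

theorem lk2_mono {A U : Finset V} (hA : A ⊆ U) (v w : V) : lk2 G A v w ⊆ lk2 G U v w := by
  intro t ht
  rw [mem_lk2] at ht ⊢
  exact ⟨hA ht.1, ht.2⟩

theorem gz_empty {i : ℕ} (hi : 1 ≤ i) : GZ G ∅ i := by
  refine gz_high fun s hs hc => ?_
  have h1 : s = ∅ := subset_empty.1 hs.2
  rw [h1, card_empty] at hc
  omega

/-- at most two vertices and no edge -/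
theorem gz_pts {U : Finset V} (hc : U.card ≤ 2) (hn : ∀ a ∈ U, ∀ b ∈ U, ¬ G.Adj a b) {i : ℕ}
    (hi : 1 ≤ i) : GZ G U i := by
  classical
  rcases Nat.lt_or_ge U.card 1 with h0 | h0
  · have h1 : U = ∅ := card_eq_zero.1 (by omega)
    rw [h1]
    exact gz_empty hi
  rcases Nat.lt_or_ge U.card 2 with h1 | h1
  · obtain ⟨a, ha⟩ := card_eq_one.1 (show U.card = 1 by omega)
    have h2 := gz_cone (G := G) (U := ∅) (v := a) (notMem_empty a) (fun w hw => absurd hw (notMem_empty w))
      (gz_empty hi)
    rwa [ha, ← insert_empty_eq a]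
  · obtain ⟨a, b, hab, hU⟩ := card_eq_two.1 (show U.card = 2 by omega)
    have ha : a ∈ U := by rw [hU]; exact mem_insert_self _ _
    have hb : b ∈ U := by rw [hU]; exact mem_insert_of_mem (mem_singleton_self _)
    refine gz_susp ha hb hab (hn a ha b hb) (fun w hw hwa hwb => ?_) i
    rw [hU, mem_insert, mem_singleton] at hw
    rcases hw with h2 | h2
    · exact absurd h2 hwa
    · exact absurd h2 hwb

/-- Deletion of all vertices, one after the other. -/
theorem gz_dels {P : Finset V → Prop} {i : ℕ} (hP : ∀ A, P A → ∀ v ∈ A, P (A.erase v))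
    (hl : ∀ A, P A → ∀ v ∈ A, GZ G (lk G A v) i) : ∀ A, P A → GZ G A (i + 1) := by
  intro A
  induction A using Finset.strongInduction with
  | H A ih =>
    intro hA
    rcases A.eq_empty_or_nonempty with h0 | ⟨v, hv⟩
    · rw [h0]
      exact gz_empty (by omega)
    · exact gz_del hv (ih _ (erase_ssubset hv) (hP A hA v hv)) (hl A hA v hv)

/-- all links have at most two vertices and no edge: disjoint unions of paths and circuits with at least
four vertices -/
theorem gz_paths {U : Finset V}
    (h : ∀ v ∈ U, (lk G U v).card ≤ 2 ∧ ∀ a ∈ lk G U v, ∀ b ∈ lk G U v, ¬ G.Adj a b)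
    {i : ℕ} (hi : 2 ≤ i) : GZ G U i := by
  obtain ⟨j, rfl⟩ : ∃ j, i = j + 1 := ⟨i - 1, by omega⟩
  refine gz_dels (P := fun A => A ⊆ U) (fun A hA v hv => (erase_subset v A).trans hA) ?_ U subset_rfl
  intro A hA v hv
  have h1 := h v (hA hv)
  exact gz_pts ((card_le_card (lk_mono hA v)).trans h1.1)
    (fun a ha b hb => h1.2 a (lk_mono hA v ha) b (lk_mono hA v hb)) (by omega)

/-- subsets of circuits -/
theorem gz_cyc {Z A : Finset V} (h : Cyc G Z) (hA : A ⊆ Z) {i : ℕ} (hi : 2 ≤ i) : GZ G A i := by
  refine gz_paths (fun v hv => ⟨?_, fun a ha b hb hab => ?_⟩) hi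
  · rw [← h.two v (hA hv)]
    exact card_le_card (lk_mono hA v)
  · have ha' := mem_lk.1 (lk_mono hA v ha)
    have hb' := mem_lk.1 (lk_mono hA v hb)
    exact h.noTri (hA hv) ha'.1 hb'.1 ha'.2 hb'.2 hab

/-- above degree two: full subcomplexes of surfaces -/
theorem gz_surf {U A : Finset V} (h : Surf G U) (hA : A ⊆ U) {i : ℕ} (hi : 3 ≤ i) : GZ G A i := by
  obtain ⟨j, rfl⟩ : ∃ j, i = j + 1 := ⟨i - 1, by omega⟩
  refine gz_dels (P := fun A => A ⊆ U) (fun A hA v hv => (erase_subset v A).trans hA) ?_ A hA
  intro A hA v hv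
  exact gz_cyc (h.cyc v (hA hv)) (lk_mono hA v) (by omega)

/-- A flag 2-sphere: contraction of edges, until it is a suspension. -/
theorem fs_two (n : ℕ) : ∀ (G : SimpleGraph V) (U : Finset V), U.card = n → FS G U → GZ G U 2 := by
  induction n with
  | zero =>
    intro G U hc h
    have h1 := h.surf.con.1.card_pos
    omega
  | succ n ih =>
    intro G U hc h
    rcases exists_edge h with ⟨x, hx, u, hu, hxu, hN⟩ | ⟨a, ha, b, hb, hab, hn, hall⟩
    · refine gz_merge hx hu hxu.ne hN (ih _ _ ?_ (fs_merge h hx hu hxu hN)) ?_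
      · rw [card_erase_of_mem hx]
        omega
      · obtain ⟨p, q, hpq, he, hn⟩ := h.surf.pair hx hu hxu
        refine gz_pts (by rw [he, card_pair hpq]) (fun a ha b hb hab => ?_) le_rfl
        rw [he, mem_insert, mem_singleton] at ha hb
        rcases ha with rfl | rfl <;> rcases hb with rfl | rfl
        · exact hab.ne rfl
        · exact hn hab
        · exact hn hab.symm
        · exact hab.ne rfl
    · exact gz_susp ha hb hab hn hall 2

/-- All full subcomplexes of flag 2-spheres. -/
theorem fs_gz {U A : Finset V} (h : FS G U) (hA : A ⊆ U) {i : ℕ} (hi : 2 ≤ i) : GZ G A i := by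
  classical
  rcases Nat.lt_or_ge i 3 with h3 | h3
  · have hi2 : i = 2 := by omega
    subst hi2
    have key : ∀ D : Finset V, D ⊆ U → GZ G (U \ D) 2 := by
      intro D
      induction D using Finset.induction_on with
      | empty =>
        intro _
        rw [sdiff_empty]
        exact fs_two _ G U rfl h
      | insert v D hv ih =>
        intro hD
        have hD' : D ⊆ U := (subset_insert v D).trans hD
        have hvU : v ∈ U := hD (mem_insert_self v D)
        have e1 : U \ insert v D = (U \ D).erase v := by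
          ext w
          simp only [mem_sdiff, mem_insert, mem_erase, not_or]
          tauto
        rw [e1]
        refine gz_rem (mem_sdiff.2 ⟨hvU, hv⟩) (ih hD') ?_
        exact gz_cyc (h.surf.cyc v hvU) (lk_mono sdiff_subset v) le_rfl
    have e2 := key (U \ A) sdiff_subset
    rwa [Finset.sdiff_sdiff_eq_self hA] at e2
  · exact gz_surf h.surf hA h3

/-- If every link of a vertex is a full subcomplex of a complex for which the growth of all full
subcomplexes vanishes in degree `i`, then the growth vanishes in degree `i + 1` for all full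
subcomplexes. -/
theorem gz_links {U : Finset V} {i : ℕ} (h : ∀ v ∈ U, ∀ A ⊆ lk G U v, GZ G A i) {A : Finset V}
    (hA : A ⊆ U) : GZ G A (i + 1) :=
  gz_dels (P := fun B => B ⊆ U) (fun B hB v _ => (erase_subset v B).trans hB)
    (fun _ hB v hv => h v (hB hv) _ (lk_mono hB v)) A hA

end Pool.Agent.H49.FS
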